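import Mathlib

/-!
Majority votes over the values of a partial recursive function.
-/

set_option autoImplicit false

namespace Pool.Agent.Q298.DF

variable {α β : Type} [Primcodable α] [Primcodable β]

/-- the value of the program `c` after `s` steps -/
def ev (c : Nat.Partrec.Code) (s : ℕ) (x : α) : Option Bool :=
  (Nat.Partrec.Code.evaln s c (Encodable.encode x)).bind
    (fun m => (Encodable.decode m : Option Bool))

theorem ev_prim (c : Nat.Partrec.Code) : Primrec₂ (ev (α := α) c) :=
  Primrec.option_bind (Nat.Partrec.Code.primrec_evaln.comp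
    ((Primrec.fst.pair (Primrec.const c)).pair (Primrec.encode.comp Primrec.snd)))
    (Primrec.decode.comp Primrec.snd).to₂

theorem ev_mono {c : Nat.Partrec.Code} {s t : ℕ} (h : s ≤ t) {x : α} {b : Bool}
    (hb : ev c s x = some b) : ev c t x = some b := by
  unfold ev at hb ⊢
  rw [Option.bind_eq_some_iff] at hb ⊢
  obtain ⟨m, hm, e⟩ := hb
  exact ⟨m, Nat.Partrec.Code.evaln_mono h hm, e⟩

theorem exists_ev {φ : α →. Bool} (hφ : Partrec φ) :
    ∃ c : Nat.Partrec.Code, ∀ x b, b ∈ φ x ↔ ∃ s, ev c s x = some b := by
  obtain ⟨c, hc⟩ := Nat.Partrec.Code.exists_code.1 hφ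
  refine ⟨c, fun x b => ?_⟩
  have h1 : Nat.Partrec.Code.eval c (Encodable.encode x) = (φ x).map Encodable.encode := by
    rw [hc]
    simp
  constructor
  · intro hb
    have h2 : Encodable.encode b ∈ Nat.Partrec.Code.eval c (Encodable.encode x) := by
      rw [h1]
      exact Part.mem_map _ hb
    obtain ⟨s, hs⟩ := Nat.Partrec.Code.evaln_complete.1 h2
    refine ⟨s, ?_⟩
    unfold ev
    rw [Option.bind_eq_some_iff]
    exact ⟨_, hs, Encodable.encodek b⟩
  · rintro ⟨s, hs⟩
    unfold ev at hs
    rw [Option.bind_eq_some_iff] at hs
    obtain ⟨m, hm, e⟩ := hs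
    have h2 := Nat.Partrec.Code.evaln_sound hm
    rw [h1, Part.mem_map_iff] at h2
    obtain ⟨b', hb', e'⟩ := h2
    rw [← e', Encodable.encodek] at e
    rw [← Option.some.inj e]
    exact hb'

/-- the number of votes for `b` after `s` steps -/
def nv (c : Nat.Partrec.Code) (b : Bool) (s : ℕ) (H : List α) : ℕ :=
  (H.filter (fun x => ev c s x = some b)).length

theorem nv_prim (c : Nat.Partrec.Code) (b : Bool) :
    Primrec (fun p : ℕ × List α => nv c b p.1 p.2) := by
  have h1 : PrimrecRel (fun (x : α) (s : ℕ) => ev c s x = some b) :=
    Primrec.eq.comp ((ev_prim c).comp Primrec.snd Primrec.fst) (Primrec.const (some b))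
  exact (Primrec.list_length.comp
    ((PrimrecRel.listFilter h1).comp Primrec.snd Primrec.fst)).of_eq (fun p => by
      simp only [nv])

/-- the decision after `s` steps -/
def dec (c : Nat.Partrec.Code) (s : ℕ) (H : List α) : Option Bool :=
  if H.length < 2 * nv c true s H then some true else
    if H.length < 2 * nv c false s H then some false else none

theorem dec_prim (c : Nat.Partrec.Code) :
    Primrec (fun p : ℕ × List α => dec c p.1 p.2) := by
  have h : ∀ b, PrimrecPred (fun p : ℕ × List α =>
      p.2.length < 2 * nv c b p.1 p.2) := fun b =>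
    Primrec.nat_lt.comp (Primrec.list_length.comp Primrec.snd)
      (Primrec.nat_mul.comp (Primrec.const 2) (nv_prim c b))
  exact Primrec.ite (h true) (Primrec.const (some true))
    (Primrec.ite (h false) (Primrec.const (some false)) (Primrec.const none))

theorem dec_some {c : Nat.Partrec.Code} {s : ℕ} {H : List α} {b : Bool}
    (h : dec c s H = some b) : H.length < 2 * nv c b s H := by
  unfold dec at h
  split_ifs at h with h1 h2
  · cases h
    exact h1
  · cases h
    exact h2

theorem dec_isSome {c : Nat.Partrec.Code} {s : ℕ} {H : List α} (b : Bool)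
    (h : H.length < 2 * nv c b s H) : ∃ b', dec c s H = some b' := by
  unfold dec
  split_ifs with h1 h2
  · exact ⟨_, rfl⟩
  · exact ⟨_, rfl⟩
  · cases b
    · exact absurd h h2
    · exact absurd h h1

open Classical in
/-- The value of the majority can be computed. -/
theorem majority {φ : α →. Bool} (hφ : Partrec φ) {V : β → List α} (hV : Computable V) :
    ∃ ψ : β →. Bool, Partrec ψ ∧ ∀ y bb,
      2 * ((V y).filter (fun x => decide (¬ bb ∈ φ x))).length < (V y).length → bb ∈ ψ y := by
  obtain ⟨c, hc⟩ := exists_ev hφ
  refine ⟨fun y => Nat.rfindOpt (fun s => dec c s (V y)), ?_, fun y bb hfew => ?_⟩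
  · have h2 : Computable (fun p : β × ℕ => dec c p.2 (V p.1)) :=
      (dec_prim c).to_comp.comp (Computable.snd.pair (hV.comp Computable.fst))
    exact Partrec.rfindOpt h2.to₂
  · set H := V y with hH
    have key : ∀ (p : α → Bool), (∀ x ∈ H, p x = true → ¬ bb ∈ φ x) →
        2 * (H.filter p).length < H.length := by
      intro p hp
      have h1 : (H.filter p).length ≤ (H.filter (fun x => decide (¬ bb ∈ φ x))).length := by
        have h2 : H.filter p = (H.filter (fun x => decide (¬ bb ∈ φ x))).filter p := by
          rw [List.filter_filter]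
          refine List.filter_congr (fun x hx => ?_)
          by_cases h3 : p x = true
          · have h4 := hp x hx h3
            simp [h3, h4]
          · simp [h3]
        rw [h2]
        exact List.length_filter_le _ _
      omega
    have hstop : ∃ s, ∀ x ∈ H, bb ∈ φ x → ev c s x = some bb := by
      have : ∀ l : List α, ∃ s, ∀ x ∈ l, bb ∈ φ x → ev c s x = some bb := by
        intro l
        induction l with
        | nil => exact ⟨0, by simp⟩
        | cons L l ih =>
          obtain ⟨s, hs⟩ := ih
          by_cases hL : bb ∈ φ L
          · obtain ⟨s', hs'⟩ := (hc L bb).1 hL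
            refine ⟨max s s', fun L' hL' hb' => ?_⟩
            rw [List.mem_cons] at hL'
            rcases hL' with rfl | hL'
            · exact ev_mono (le_max_right _ _) hs'
            · exact ev_mono (le_max_left _ _) (hs L' hL' hb')
          · refine ⟨s, fun L' hL' hb' => ?_⟩
            rw [List.mem_cons] at hL'
            rcases hL' with rfl | hL'
            · exact absurd hb' hL
            · exact hs L' hL' hb'
      exact this H
    obtain ⟨s, hs⟩ := hstop
    have hmaj : H.length < 2 * nv c bb s H := by
      have e1 := List.length_eq_length_filter_add (l := H) (fun x => decide (ev c s x = some bb))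
      have e2 := key (fun x => !decide (ev c s x = some bb)) (by
        intro x hx hp hb
        have e4 := hs x hx hb
        simp [e4] at hp)
      unfold nv
      omega
    obtain ⟨b', hb'⟩ := dec_isSome bb hmaj
    have hdom : (Nat.rfindOpt (fun s => dec c s H)).Dom := Nat.rfindOpt_dom.2 ⟨s, b', hb'⟩
    obtain ⟨s', hs'⟩ := Nat.rfindOpt_spec (Part.get_mem hdom)
    have hval : (Nat.rfindOpt (fun s => dec c s H)).get hdom = bb := by
      by_contra hne
      have e5 := dec_some hs'
      have e6 := key (fun x => decide (ev c s' x =
          some ((Nat.rfindOpt (fun s => dec c s H)).get hdom))) (by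
        intro x hx hp hb
        rw [decide_eq_true_eq] at hp
        have e7 := (hc x _).2 ⟨s', hp⟩
        exact hne (Part.mem_unique e7 hb))
      unfold nv at e5
      omega
    rw [← hval]
    exact Part.get_mem hdom

end Pool.Agent.Q298.DF
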