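import Mathlib

/-!
# The lower and the upper half of the cube of odd dimension

A perfect matching along inclusions and the total distance.
-/

open Finset

namespace Pool.Agent.Q298.DF

variable (j : ℕ)

/-- the lower half of the cube of dimension `2 j + 1` -/
def low : Finset (Finset (Fin (2 * j + 1))) := univ.filter (fun y => 2 * y.card < 2 * j + 1)

/-- the upper half -/
def upp : Finset (Finset (Fin (2 * j + 1))) := univ.filter (fun y => 2 * j + 1 < 2 * y.card)

variable {j}

lemma mem_low {y : Finset (Fin (2 * j + 1))} : y ∈ low j ↔ 2 * y.card < 2 * j + 1 := by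
  simp [low]

lemma mem_upp {y : Finset (Fin (2 * j + 1))} : y ∈ upp j ↔ 2 * j + 1 < 2 * y.card := by
  simp [upp]

lemma card_compl' (y : Finset (Fin (2 * j + 1))) : (yᶜ).card = 2 * j + 1 - y.card := by
  rw [card_compl, Fintype.card_fin]

lemma card_le' (y : Finset (Fin (2 * j + 1))) : y.card ≤ 2 * j + 1 := by
  have := card_le_univ y
  rwa [Fintype.card_fin] at this

/-- sums over the upper half -/
lemma sum_upp (g : ℕ → ℝ) :
    ∑ y ∈ upp j, g y.card = ∑ y ∈ low j, g (2 * j + 1 - y.card) := by
  refine sum_nbij' (fun y => yᶜ) (fun y => yᶜ) ?_ ?_ ?_ ?_ ?_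
  · intro y hy
    rw [mem_upp] at hy
    rw [mem_low, card_compl']
    omega
  · intro y hy
    rw [mem_low] at hy
    rw [mem_upp, card_compl']
    omega
  · intro y _
    simp
  · intro y _
    simp
  · intro y hy
    have := card_le' y
    rw [card_compl']
    congr 1
    omega

lemma card_upp : (upp j).card = (low j).card := by
  have := sum_upp (j := j) (fun _ => 1)
  simp only [sum_const, nsmul_eq_mul, mul_one] at this
  exact_mod_cast this

lemma card_low : (low j).card = 4 ^ j := by
  have h1 : (low j).card + (upp j).card = 2 ^ (2 * j + 1) := by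
    rw [← card_union_of_disjoint]
    · have : low j ∪ upp j = univ := by
        ext y
        simp only [mem_union, mem_low, mem_upp, mem_univ, iff_true]
        omega
      rw [this, card_univ, Fintype.card_finset, Fintype.card_fin]
    · rw [disjoint_left]
      intro y h1 h2
      rw [mem_low] at h1
      rw [mem_upp] at h2
      omega
  rw [card_upp] at h1
  have h2 : 2 ^ (2 * j + 1) = 2 * 4 ^ j := by
    rw [pow_succ, pow_mul]
    norm_num
    ring
  omega

lemma tele (m : ℕ) (n : ℕ) :
    ∑ k ∈ range (n + 1), (((m + 1).choose k : ℤ) * ((m + 1 : ℤ) - 2 * k))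
      = (m + 1) * (m.choose n : ℤ) := by
  induction n with
  | zero => simp
  | succ n ih =>
    rw [sum_range_succ, ih]
    have h1 : ((m + 1).choose (n + 1) : ℤ) = m.choose n + m.choose (n + 1) := by
      exact_mod_cast Nat.choose_succ_succ m n
    have h2 : ((n + 1 : ℤ)) * ((m + 1).choose (n + 1) : ℤ) = (m + 1) * (m.choose n : ℤ) := by
      have := Nat.add_one_mul_choose_eq m n
      have h3 : ((m : ℤ) + 1) * (m.choose n : ℤ) = ((m + 1).choose (n + 1) : ℤ) * (n + 1) := by
        exact_mod_cast this
      linarith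
    push_cast
    have h4 : ((m + 1).choose (n + 1) : ℤ) * ((m : ℤ) + 1 - 2 * (n + 1))
        = (m + 1) * ((m + 1).choose (n + 1) : ℤ) - 2 * ((n + 1 : ℤ) * ((m + 1).choose (n + 1) : ℤ)) := by
      ring
    rw [h4, h2, h1]
    ring

/-- the total distance in the cube of dimension `2 j + 1` -/
def tot (j : ℕ) : ℕ := (2 * j + 1) * (2 * j).choose j

lemma sum_low : ∑ y ∈ low j, ((2 * j + 1 : ℝ) - 2 * (y.card : ℝ)) = (tot j : ℝ) := by
  have h1 : ∑ y ∈ low j, ((2 * j + 1 : ℝ) - 2 * (y.card : ℝ))
      = ∑ y ∈ (univ : Finset (Fin (2 * j + 1))).powerset,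
        (fun k : ℕ => if 2 * k < 2 * j + 1 then ((2 * j + 1 : ℝ) - 2 * (k : ℝ)) else 0) y.card := by
    unfold low
    rw [sum_filter, powerset_univ]
  have h0 := sum_powerset_apply_card (fun k : ℕ => if 2 * k < 2 * j + 1 then
    ((2 * j + 1 : ℝ) - 2 * (k : ℝ)) else 0) (x := (univ : Finset (Fin (2 * j + 1))))
  rw [card_univ, Fintype.card_fin] at h0
  rw [h1, h0]
  have h2 : ∑ k ∈ range (2 * j + 1 + 1), (2 * j + 1).choose k •
      (if 2 * k < 2 * j + 1 then ((2 * j + 1 : ℝ) - 2 * (k : ℝ)) else 0)
      = ∑ k ∈ range (j + 1), ((2 * j + 1).choose k : ℝ) * ((2 * j + 1 : ℝ) - 2 * (k : ℝ)) := by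
    have hsub : range (j + 1) ⊆ range (2 * j + 1 + 1) := by
      intro k hk
      rw [mem_range] at hk ⊢
      omega
    rw [← sum_subset hsub]
    · refine sum_congr rfl (fun k hk => ?_)
      rw [mem_range] at hk
      rw [if_pos (by omega), nsmul_eq_mul]
    · intro k _ hk
      rw [mem_range] at hk
      rw [if_neg (by omega), smul_zero]
  rw [h2]
  have h3 := tele (2 * j) j
  have h4 : ∑ k ∈ range (j + 1), ((2 * j + 1).choose k : ℝ) * ((2 * j + 1 : ℝ) - 2 * (k : ℝ))
      = ((∑ k ∈ range (j + 1), (((2 * j + 1).choose k : ℤ) * (((2 * j : ℕ) : ℤ) + 1 - 2 * k)) : ℤ) : ℝ) := by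
    push_cast
    rfl
  rw [h4, h3]
  unfold tot
  push_cast
  ring

lemma centralBinom_sq (j : ℕ) (hj : 1 ≤ j) : 16 ^ j ≤ 4 * j * (Nat.centralBinom j) ^ 2 := by
  induction j, hj using Nat.le_induction with
  | base => simp [Nat.centralBinom]
  | succ j hj ih =>
    have h1 := Nat.succ_mul_centralBinom_succ j
    -- (j+1) * C(j+1) = 2 * (2 j + 1) * C(j)
    have h2 : (j + 1) * (4 * (j + 1) * Nat.centralBinom (j + 1) ^ 2)
        = 16 * (2 * j + 1) ^ 2 * Nat.centralBinom j ^ 2 := by
      have : (j + 1) * (4 * (j + 1) * Nat.centralBinom (j + 1) ^ 2)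
          = 4 * ((j + 1) * Nat.centralBinom (j + 1)) ^ 2 := by ring
      rw [this, h1]
      ring
    have h3 : (j + 1) * 16 ^ (j + 1) ≤ (j + 1) * (4 * (j + 1) * Nat.centralBinom (j + 1) ^ 2) := by
      rw [h2, pow_succ]
      calc (j + 1) * (16 ^ j * 16) ≤ (j + 1) * ((4 * j * Nat.centralBinom j ^ 2) * 16) := by
            gcongr
        _ = 16 * (4 * j * (j + 1)) * Nat.centralBinom j ^ 2 := by ring
        _ ≤ 16 * (2 * j + 1) ^ 2 * Nat.centralBinom j ^ 2 := by
            gcongr
            nlinarith
    exact Nat.le_of_mul_le_mul_left h3 (by omega)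

/-- the total distance is much larger than the number of points -/
lemma tot_large (M : ℝ) : ∃ j : ℕ, 1 ≤ j ∧ M * 4 ^ j < (tot j : ℝ) := by
  obtain ⟨n, hn⟩ := exists_nat_gt (|M|)
  refine ⟨(n + 1) ^ 2, Nat.one_le_pow _ _ (Nat.succ_pos n), ?_⟩
  set j := (n + 1) ^ 2 with hj
  have hj1 : 1 ≤ j := Nat.one_le_pow _ _ (Nat.succ_pos n)
  have h1 := centralBinom_sq j hj1
  have h2 : (4 : ℝ) ^ j ≤ 2 * (n + 1) * Nat.centralBinom j := by
    have h3 : ((4 : ℝ) ^ j) ^ 2 ≤ (2 * (n + 1) * Nat.centralBinom j) ^ 2 := by
      have h4 : ((16 : ℝ)) ^ j ≤ 4 * j * (Nat.centralBinom j : ℝ) ^ 2 := by exact_mod_cast h1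
      have h5 : ((4 : ℝ) ^ j) ^ 2 = 16 ^ j := by
        rw [← pow_mul, mul_comm, pow_mul]
        norm_num
      rw [h5]
      refine h4.trans (le_of_eq ?_)
      rw [hj]
      push_cast
      ring
    exact abs_le_of_sq_le_sq' h3 (by positivity) |>.2
  have h6 : (tot j : ℝ) = (2 * j + 1) * Nat.centralBinom j := by
    unfold tot Nat.centralBinom
    push_cast
    ring
  have hC : (0 : ℝ) < Nat.centralBinom j := by exact_mod_cast Nat.centralBinom_pos j
  have h7 : (j : ℝ) = (n + 1) ^ 2 := by rw [hj]; push_cast; ring
  have h8 : M ≤ n := (le_abs_self M).trans hn.le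
  have hn0 : (0 : ℝ) ≤ n := by positivity
  calc M * 4 ^ j ≤ n * 4 ^ j := by gcongr
    _ ≤ n * (2 * (n + 1) * Nat.centralBinom j) := by gcongr
    _ < (2 * j + 1) * Nat.centralBinom j := by
        rw [← mul_assoc]
        refine mul_lt_mul_of_pos_right ?_ hC
        rw [h7]
        nlinarith
    _ = (tot j : ℝ) := h6.symm

/-- Hall: a matching of the lower half into the upper half along inclusions -/
lemma exists_matching (j : ℕ) : ∃ ψ : Finset (Fin (2 * j + 1)) → Finset (Fin (2 * j + 1)),
    (∀ y ∈ low j, y ⊂ ψ y ∧ ψ y ∈ upp j) ∧ Set.InjOn ψ (low j) := by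
  classical
  set m := 2 * j + 1 with hm
  let t : {y // y ∈ low j} → Finset (Finset (Fin m)) := fun y =>
    univ.filter (fun z => y.1 ⊆ z ∧ z.card = m - y.1.card)
  have hall : ∀ A : Finset {y // y ∈ low j}, A.card ≤ (A.biUnion t).card := by
    intro A
    -- double counting with weights
    let wt : ℕ → ℝ := fun k => 1 / ((m - k).choose k : ℝ)
    have hdeg : ∀ y : {y // y ∈ low j}, ((t y).card : ℝ) * wt y.1.card = 1 := by
      intro y
      have hy := mem_low.1 y.2
      have h1 : (t y).card = (m - y.1.card).choose y.1.card := by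
        have h2 : t y = ((univ \ y.1).powersetCard (m - 2 * y.1.card)).image (fun s => y.1 ∪ s) := by
          ext z
          simp only [t, mem_filter, mem_univ, true_and, mem_image, mem_powersetCard]
          constructor
          · rintro ⟨h3, h4⟩
            refine ⟨z \ y.1, ⟨sdiff_subset_sdiff (subset_univ z) (subset_refl _), ?_⟩, ?_⟩
            · rw [card_sdiff_of_subset h3, h4]
              omega
            · exact union_sdiff_of_subset h3
          · rintro ⟨s, ⟨h3, h4⟩, rfl⟩
            refine ⟨subset_union_left, ?_⟩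
            have hdisj : Disjoint y.1 s := by
              rw [disjoint_left]
              intro i hi his
              exact (mem_sdiff.1 (h3 his)).2 hi
            rw [card_union_of_disjoint hdisj, h4]
            omega
        rw [h2, card_image_of_injOn, card_powersetCard, card_sdiff_of_subset (subset_univ _),
          card_univ, Fintype.card_fin]
        · rw [← Nat.choose_symm_of_eq_add]
          omega
        · intro s hs s' hs' hss
          have hs2 := (mem_powersetCard.1 (mem_coe.1 hs)).1
          have hs2' := (mem_powersetCard.1 (mem_coe.1 hs')).1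
          simp only at hss
          ext i
          constructor
          · intro hi
            have h3 : i ∈ y.1 ∪ s' := by rw [← hss]; exact mem_union_right _ hi
            rcases mem_union.1 h3 with h4 | h4
            · exact absurd h4 (mem_sdiff.1 (hs2 hi)).2
            · exact h4
          · intro hi
            have h3 : i ∈ y.1 ∪ s := by rw [hss]; exact mem_union_right _ hi
            rcases mem_union.1 h3 with h4 | h4
            · exact absurd h4 (mem_sdiff.1 (hs2' hi)).2
            · exact h4
      rw [h1]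
      have h3 : 0 < (m - y.1.card).choose y.1.card := Nat.choose_pos (by omega)
      have h4 : ((m - y.1.card).choose y.1.card : ℝ) ≠ 0 := by exact_mod_cast h3.ne'
      simp only [wt]
      field_simp
    have hcod : ∀ z ∈ A.biUnion t, ∑ y ∈ A.filter (fun y => z ∈ t y), wt y.1.card ≤ 1 := by
      intro z _
      -- all y have cardinality m - card z =: k, subsets of z
      have hk : ∀ y ∈ A.filter (fun y => z ∈ t y), y.1.card = m - z.card ∧ y.1 ⊆ z := by
        intro y hy
        have h1 := (mem_filter.1 hy).2
        have h2 := (mem_filter.1 h1).2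
        have h3 := mem_low.1 y.2
        refine ⟨?_, h2.1⟩
        omega
      have h1 : ∑ y ∈ A.filter (fun y => z ∈ t y), wt y.1.card
          = ((A.filter (fun y => z ∈ t y)).card : ℝ) * wt (m - z.card) := by
        rw [← nsmul_eq_mul, ← sum_const]
        exact sum_congr rfl (fun y hy => by rw [(hk y hy).1])
      have h2 : (A.filter (fun y => z ∈ t y)).card ≤ (z.powersetCard (m - z.card)).card := by
        refine card_le_card_of_injOn (fun y => y.1) ?_ ?_
        · intro y hy
          rw [mem_coe, mem_powersetCard]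
          exact ⟨(hk y hy).2, (hk y hy).1⟩
        · intro y _ y' _ h
          exact Subtype.ext h
      rw [card_powersetCard] at h2
      rcases Nat.eq_zero_or_pos (A.filter (fun y => z ∈ t y)).card with h0 | h0
      · rw [h1, h0]
        simp
      · obtain ⟨y, hy⟩ := card_pos.1 h0
        have hy1 := (hk y hy).1
        have hy2 := mem_low.1 y.2
        have hz : z.card ≤ m := by
          have := card_le_univ z
          rwa [Fintype.card_fin] at this
        have h3 : m - (m - z.card) = z.card := by omega
        rw [h1]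
        simp only [wt]
        rw [h3]
        have h4 : 0 < z.card.choose (m - z.card) := lt_of_lt_of_le h0 h2
        have h5 : (0 : ℝ) < (z.card.choose (m - z.card) : ℝ) := by exact_mod_cast h4
        rw [mul_one_div, div_le_one h5]
        exact_mod_cast h2
    have hmain : (A.card : ℝ) ≤ (A.biUnion t).card := by
      calc (A.card : ℝ) = ∑ y ∈ A, ((t y).card : ℝ) * wt y.1.card := by
            rw [sum_congr rfl (fun y _ => hdeg y)]
            simp
        _ = ∑ y ∈ A, ∑ z ∈ A.biUnion t, if z ∈ t y then wt y.1.card else 0 := by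
            refine sum_congr rfl (fun y hy => ?_)
            rw [← sum_filter, sum_const, nsmul_eq_mul]
            congr 3
            ext z
            simp only [mem_filter, mem_biUnion]
            constructor
            · intro hz
              exact ⟨⟨y, hy, hz⟩, hz⟩
            · intro hz
              exact hz.2
        _ = ∑ z ∈ A.biUnion t, ∑ y ∈ A, if z ∈ t y then wt y.1.card else 0 := sum_comm
        _ ≤ ∑ _z ∈ A.biUnion t, (1 : ℝ) := by
            refine sum_le_sum (fun z hz => ?_)
            rw [← sum_filter]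
            exact hcod z hz
        _ = (A.biUnion t).card := by simp
    exact_mod_cast hmain
  obtain ⟨g, hg1, hg2⟩ := (Finset.all_card_le_biUnion_card_iff_exists_injective t).1 hall
  refine ⟨fun y => if h : y ∈ low j then g ⟨y, h⟩ else y, ?_, ?_⟩
  · intro y hy
    simp only [dif_pos hy]
    have h1 := (mem_filter.1 (hg2 ⟨y, hy⟩)).2
    have h2 := mem_low.1 hy
    simp only at h1
    have h3 : (g ⟨y, hy⟩).card = m - y.card := h1.2
    refine ⟨?_, ?_⟩
    · refine (ssubset_iff_subset_ne).2 ⟨h1.1, fun h => ?_⟩
      rw [← h] at h3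
      omega
    · rw [mem_upp]
      omega
  · intro y hy y' hy' h
    have hy2 : y ∈ low j := hy
    have hy2' : y' ∈ low j := hy'
    simp only [dif_pos hy2, dif_pos hy2'] at h
    have := hg1 h
    exact congrArg Subtype.val this

end Pool.Agent.Q298.DF
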